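import Pool.Agent.H295R2.MK.Defs

set_option autoImplicit false

namespace H400MK

open Finset Filter Topology MeasureTheory Complex
open Pool.Agent.H306R2 H295MK

theorem fr_continuous (a b : ℕ) : Continuous (H295MK.fr a b) := by
  unfold H295MK.fr
  fun_prop

theorem CC_continuous (j : ℕ) (X : ℝ) : Continuous (CC j X) := by
  unfold CC
  exact continuous_finsetSum _ fun b _ => continuous_const.mul (fr_continuous _ _)

theorem VV_continuous (j : ℕ) (X : ℝ) : Continuous (VV j X) := by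
  unfold VV
  exact continuous_finsetSum _ fun b _ => continuous_const.mul (fr_continuous _ _)

/-- the algebraic lower bound -/
theorem alg_low {E K0 A' B : ℝ} (hE : 3 ≤ E) (hA' : 0 ≤ A') (h1 : A' ≤ E - 3) (hK : 0 < K0)
    (h2 : K0 ≤ B) :
    A' ^ 2 / B ≤ ((E - 1) / ((E + 1) ^ (1 / 2 : ℝ) * K0 ^ (1 / 4 : ℝ))) ^ (4 : ℝ) := by
  have hE1 : 0 < E + 1 := by linarith
  have hE2 : 0 ≤ E - 1 := by linarith
  have e1 : ((E - 1) / ((E + 1) ^ (1 / 2 : ℝ) * K0 ^ (1 / 4 : ℝ))) ^ (4 : ℝ)
      = ((E - 1) ^ 2 / (E + 1)) ^ 2 / K0 := by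
    rw [Real.div_rpow hE2 (by positivity), Real.mul_rpow (by positivity) (by positivity),
      ← Real.rpow_mul hE1.le, ← Real.rpow_mul hK.le]
    norm_num
    field_simp
  rw [e1]
  have h3 : A' ≤ (E - 1) ^ 2 / (E + 1) := by
    rw [le_div_iff₀ hE1]
    nlinarith
  have h4 : A' ^ 2 ≤ ((E - 1) ^ 2 / (E + 1)) ^ 2 := pow_le_pow_left₀ hA' h3 2
  exact div_le_div₀ (by positivity) h4 hK h2

theorem fixed (h1 : WinN) (h2 : WinC) (h3 : WinV) (h4 : EElow) (h5 : N4up) : Fixed := by
  intro j A K x hj hA hAV hKV hx hx2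
  set m : ℕ := 4 * j ^ 2 with hm
  have hj0 : (0:ℝ) < j := by exact_mod_cast hj
  obtain ⟨K', hK'1, hK'2⟩ := exists_between hKV
  have hvol : 0 < volN (j ^ 2) := by unfold volN; positivity
  have haF : 0 < aF (2 * (j:ℝ)) := aF_pos (by positivity)
  have hK'0 : 0 < K' := lt_trans (by positivity) hK'1
  have hK0 : 0 < K := lt_trans hK'0 hK'2
  have hYt : Tendsto (fun T : ℝ => Real.log (Yt x T)) atTop atTop :=
    Yt_tendsto (η := x) (by linarith)
  have hE := hYt.eventually (h4 j A hj hAV)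
  have hN := hYt.eventually (h5 j K' hj hK'1)
  have hL1 : ∀ᶠ T : ℝ in atTop, 3 / (x * A) ≤ Real.log (Yt x T) ^ m :=
    ((tendsto_pow_atTop (by positivity)).comp hYt).eventually_ge_atTop _
  have hL2 : ∀ᶠ T : ℝ in atTop, 1 / (K - K') ≤ Real.log (Yt x T) ^ m :=
    ((tendsto_pow_atTop (by positivity)).comp hYt).eventually_ge_atTop _
  filter_upwards [h1 j x x hj hx (by linarith) hx (by linarith),
    h2 j x x hj hx (by linarith) hx (by linarith),
    h3 j x x hj hx (by linarith) hx (by linarith), hE, hN, hL1, hL2, eventually_gt_atTop 1,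
    hYt.eventually_gt_atTop 0] with T hT1 hT2 hT3 hT4 hT5 hT6 hT7 hT8 hT9
  have hT0 : 0 < T := by linarith
  have hH0 : 0 < Ht x T := Real.rpow_pos_of_pos hT0 _
  have hY0 : 0 < Yt x T := Real.rpow_pos_of_pos hT0 _
  have hX : Real.exp (1 / 2 * Real.log (Yt x T)) = Yt x T ^ (1 / 2 : ℝ) := by
    rw [Real.rpow_def_of_pos hY0, mul_comm]
  rw [hX] at hT4 hT5
  set L := Real.log (Yt x T) with hL
  set X := Yt x T ^ (1 / 2 : ℝ) with hXd
  set E := EE j X with hEd
  set Q := N4 j X with hQd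
  have hxA : 3 ≤ x * (A * L ^ m) := by
    rw [div_le_iff₀ (by positivity)] at hT6
    linarith
  have hKK : 1 ≤ (K - K') * L ^ m := by
    rw [div_le_iff₀ (by linarith)] at hT7
    linarith
  have hAL : 0 ≤ A * L ^ m := by positivity
  have hAL3 : 3 ≤ A * L ^ m := by nlinarith
  have hE3 : 3 ≤ E := le_trans hAL3 hT4
  have hQ0 : 0 ≤ Q := by
    rw [hQd]; unfold N4
    refine sum_nonneg fun a _ => sum_nonneg fun b _ => sum_nonneg fun c _ => sum_nonneg fun d _ => ?_
    split_ifs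
    · have h1 := dv_nonneg hj0.le a
      have h2 := dv_nonneg hj0.le b
      have h3 := dv_nonneg hj0.le c
      have h4 := dv_nonneg hj0.le d
      positivity
    · exact le_rfl
  have hQ1 : Q + 1 ≤ K * L ^ m := by linarith
  set J := (A * ((1 - x) * L ^ m)) ^ 2 / (K * L ^ m) with hJ
  have hwin : ∀ τ ∈ Set.Icc (x * T) ((1 - x) * T), J ≤
      ∫ t in (τ - x / 2 * T)..(τ + x / 2 * T), ‖riemannZeta (1 / 2 + t * Complex.I)‖ ^ (4 * (j:ℝ)) *
        gw τ (Ht x T) t := by
    intro τ hτ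
    have hτ2 : τ ≤ T := by
      have := hτ.2
      nlinarith
    have h := window_holder_real 1 (fun _ => 2) (fun i => by norm_num) j (4 * (j:ℝ)) hj (by positivity)
      (by simp; field_simp; norm_num)
      (fun t => riemannZeta (cl t)) (CC j X) (fun _ => VV j X)
      (by unfold cl; exact zeta_line_continuous) (CC_continuous _ _) (fun i => VV_continuous _ _)
      (gw τ (Ht x T)) (gw_continuous _ _) (fun t => gw_nonneg _ _ _ hH0)
      (τ - x / 2 * T) (τ + x / 2 * T) (by nlinarith) (E - 1) (E + 1) (fun _ => Q + 1)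
      (by linarith) (by linarith) (fun _ => by linarith)
      (by simpa using hT1 τ hτ.1 hτ2)
      (hT2 τ hτ.1 hτ2)
      (fun i => hT3 τ hτ.1 hτ2)
    refine le_trans ?_ h
    have e1 : 4 * (j:ℝ) / j = 4 := by field_simp
    rw [e1]
    simp only [Finset.univ_unique, Finset.prod_singleton, Nat.cast_ofNat]
    have e2 : (1:ℝ) / (2 * 2) = 1 / 4 := by norm_num
    rw [e2]
    have := alg_low (E := E) (K0 := Q + 1) (A' := A * ((1 - x) * L ^ m)) (B := K * L ^ m) hE3
      (by have : 0 ≤ 1 - x := by linarith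
          positivity) (by nlinarith) (by linarith) hQ1
    exact this
  have hfin := window_sum (fun t => ‖riemannZeta (1 / 2 + t * Complex.I)‖ ^ (4 * (j:ℝ)))
    (zeta_line_continuous.norm.rpow_const fun _ => Or.inr (by positivity)) (fun t => by positivity)
    (fun τ t => gw τ (Ht x T) t) (by unfold gw; fun_prop) (fun τ t => gw_nonneg _ _ _ hH0)
    (by
      intro t
      have h1 : ∀ τ, gw τ (Ht x T) t = gw t (Ht x T) τ := fun τ => gw_symm _ _ _
      simp only [h1]
      rw [← ofReal_integral_eq_lintegral_ofReal (gw_integrable _ _ hH0)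
        (Eventually.of_forall fun τ => gw_nonneg _ _ _ hH0), gw_integral _ _ hH0]
      simp)
    T (x * T) ((1 - x) * T) (x / 2 * T) J (by nlinarith) (by positivity) (by nlinarith)
    (by nlinarith) (by positivity) hwin
  have hconv : (∫ t in (0:ℝ)..T, ‖riemannZeta (1 / 2 + t * Complex.I)‖ ^ (4 * (j:ℝ)))
      = ∫ t in (0:ℝ)..T, ‖riemannZeta (1 / 2 + t * Complex.I)‖ ^ (4 * j) := by
    refine intervalIntegral.integral_congr fun t _ => ?_
    show ‖riemannZeta (1 / 2 + t * Complex.I)‖ ^ (4 * (j:ℝ)) = _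
    rw [show (4 * (j:ℝ)) = ((4 * j : ℕ) : ℝ) by push_cast; ring, Real.rpow_natCast]
  rw [hconv] at hfin
  refine le_trans ?_ hfin
  have hlog : L = (1 - 2 * x) * Real.log T := by
    rw [hL]
    unfold Yt
    rw [Real.log_rpow hT0]
  have hLm : 0 < L ^ m := by positivity
  have eJ : J = A ^ 2 / K * ((1 - x) ^ 2 * L ^ m) := by
    rw [hJ]
    field_simp
  rw [eJ]
  have e3 : A ^ 2 / K * ((1 - x) ^ 4 * (1 - 2 * x) * (1 - 2 * x) ^ m) * (T * Real.log T ^ m)
      = (1 - 2 * x) * T * (A ^ 2 / K * ((1 - x) ^ 4 * L ^ m)) := by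
    rw [hlog, mul_pow]
    ring
  rw [e3]
  have e4 : (1 - x) * T - x * T = (1 - 2 * x) * T := by ring
  rw [e4]
  have h12 : 0 ≤ (1 - 2 * x) * T := by
    have : 0 ≤ 1 - 2 * x := by linarith
    positivity
  refine mul_le_mul_of_nonneg_left ?_ h12
  refine mul_le_mul_of_nonneg_left ?_ (by positivity)
  refine mul_le_mul_of_nonneg_right ?_ hLm.le
  exact pow_le_pow_of_le_one (by linarith) (by linarith) (by norm_num)

end H400MK
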