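import Mathlib
import Pool.Agent.H410R2.ACIface

/-!
Second moments of the repelling weights (task AC4 of helper410): `CountMaps → Moment → Second`.
-/

set_option autoImplicit false

open Finset Pool.Agent.H410R2.AC

namespace Pool.Agent.H400R2.AC4

variable {n : ℕ}

/-- the configuration extended by one extra position -/
def ext (o : Option ℕ) (σ : Fin n → Option ℕ) : Option (Fin n) → Option ℕ := fun t => t.elim o σ

/-- the family is `{∅}` on absent types -/
def absS (S : Fin n → Finset (Finset ℕ)) (σ : Fin n → Option ℕ) (τ : Fin n) :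
    Finset (Finset ℕ) := if σ τ = none then {∅} else S τ

/-- the families of the extended configuration -/
def extS (S1 : Finset (Finset ℕ)) (S : Fin n → Finset (Finset ℕ)) (σ : Fin n → Option ℕ) :
    Option (Fin n) → Finset (Finset ℕ) := fun t => t.elim S1 (absS S σ)

/-- the coefficients -/
noncomputable def AA (g : Fin n → ℝ) (σ : Fin n → Option ℕ) : ℝ :=
  ∏ τ, (if σ τ = none then (1 : ℝ) else - g τ)

lemma mem_pos {T : Type} [Fintype T] (σ : T → Option ℕ) (a : ℕ) :
    a ∈ pos σ ↔ ∃ τ, σ τ = some a := by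
  simp [pos, Finset.mem_eraseNone]

lemma pos_ext (o : Option ℕ) (σ : Fin n → Option ℕ) :
    pos (ext o σ) = o.toFinset ∪ pos σ := by
  ext a
  simp only [mem_pos, Finset.mem_union, Option.mem_toFinset, Option.mem_def, ext]
  constructor
  · rintro ⟨t, ht⟩
    cases t with
    | none => left; simpa using ht
    | some τ => right; exact ⟨τ, by simpa using ht⟩
  · rintro (h | ⟨τ, h⟩)
    · exact ⟨none, by simpa using h⟩
    · exact ⟨some τ, by simpa using h⟩

lemma card_pos_le (σ : Fin n → Option ℕ) :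
    (pos σ).card ≤ (univ.filter (fun τ => ¬ σ τ = none)).card := by
  have h : pos σ ⊆ (univ.filter (fun τ => ¬ σ τ = none)).image (fun τ => (σ τ).getD 0) := by
    intro a ha
    rw [mem_pos] at ha
    obtain ⟨τ, h⟩ := ha
    rw [Finset.mem_image]
    exact ⟨τ, by simp [h], by simp [h]⟩
  exact (Finset.card_le_card h).trans Finset.card_image_le

lemma card_pos_le_n (σ : Fin n → Option ℕ) : (pos σ).card ≤ n := by
  refine (card_pos_le σ).trans ((Finset.card_filter_le _ _).trans ?_)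
  simp

open Classical in
lemma pos_sub_of_cfg {B : Finset ℕ} {σ : Fin n → Option ℕ} (h : σ ∈ cfg n B) : pos σ ⊆ B := by
  intro a ha
  rw [mem_pos] at ha
  obtain ⟨τ, hτ⟩ := ha
  unfold cfg at h
  have := (Fintype.mem_piFinset.1 (Finset.mem_filter.1 h).1) τ
  rw [hτ, Finset.some_mem_insertNone] at this
  exact this

open Classical in
lemma inj_of_cfg {B : Finset ℕ} {σ : Fin n → Option ℕ} (h : σ ∈ cfg n B) : Inj σ := by
  unfold cfg at h
  exact (Finset.mem_filter.1 h).2

open Classical in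
lemma cfg_sub (B : Finset ℕ) :
    cfg n B ⊆ Fintype.piFinset (fun _ : Fin n => Finset.insertNone B) := by
  intro σ h
  unfold cfg at h
  exact (Finset.mem_filter.1 h).1

lemma card_cfg_le (B : Finset ℕ) : (cfg n B).card ≤ (B.card + 1) ^ n := by
  refine (Finset.card_le_card (cfg_sub B)).trans ?_
  rw [Fintype.card_piFinset]
  simp [Finset.card_insertNone]

lemma pos_append (σ σ' : Fin n → Option ℕ) :
    pos (Fin.append σ σ') = pos σ ∪ pos σ' := by
  ext a
  simp only [mem_pos, Finset.mem_union]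
  constructor
  · rintro ⟨t, ht⟩
    revert ht
    refine Fin.addCases (fun i => ?_) (fun i => ?_) t
    · intro ht
      rw [Fin.append_left] at ht
      exact Or.inl ⟨i, ht⟩
    · intro ht
      rw [Fin.append_right] at ht
      exact Or.inr ⟨i, ht⟩
  · rintro (⟨i, h⟩ | ⟨i, h⟩)
    · exact ⟨Fin.castAdd n i, by rw [Fin.append_left]; exact h⟩
    · exact ⟨Fin.natAdd n i, by rw [Fin.append_right]; exact h⟩

lemma abs_AA_le (g : Fin n → ℝ) (C V : ℝ) (hC : 1 ≤ C) (hV : 0 < V) (hV1 : V ≤ 1)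
    (hg : ∀ τ, 0 ≤ g τ ∧ g τ ≤ C * V) (σ : Fin n → Option ℕ) :
    |AA g σ| ≤ C ^ n * V ^ (pos σ).card := by
  have h1 : |AA g σ| ≤ ∏ τ, (if σ τ = none then (1 : ℝ) else C * V) := by
    rw [AA, Finset.abs_prod]
    refine Finset.prod_le_prod (fun τ _ => abs_nonneg _) (fun τ _ => ?_)
    split_ifs with h
    · simp
    · rw [abs_neg, abs_of_nonneg (hg τ).1]; exact (hg τ).2
  refine h1.trans ?_
  rw [Finset.prod_ite, Finset.prod_const_one, one_mul, Finset.prod_const, mul_pow]
  refine mul_le_mul ?_ ?_ (by positivity) (by positivity)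
  · refine pow_le_pow_right₀ hC ((Finset.card_filter_le _ _).trans ?_)
    simp
  · exact pow_le_pow_of_le_one hV.le hV1 (card_pos_le σ)

lemma wt_empty : wt ∅ = 1 := by simp [wt]

lemma GG_empty : GG {∅} = 1 := by simp [GG, wt]

lemma FF_empty (ρ : ℕ → ℕ → ℕ) (o : Option ℕ) (m : ℕ) : FF ρ {∅} o m = 1 := by
  simp [FF, wt]

/-- the product of the weights as a function of the extended configuration -/
lemma term_eq (ρ : ℕ → ℕ → ℕ) (S : Fin n → Finset (Finset ℕ)) (g : Fin n → ℝ)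
    (S1 : Finset (Finset ℕ)) (o : Option ℕ) (σ : Fin n → Option ℕ) (m : ℕ) :
    term (fun τ a => - g τ * FF ρ (S τ) (some a) m) σ * FF ρ S1 o m =
      AA g σ * ZZ ρ (extS S1 S σ) (ext o σ) m := by
  rw [ZZ, Fintype.prod_option, AA, term]
  simp only [extS, ext, Option.elim_none, Option.elim_some]
  rw [mul_comm (FF ρ S1 o m), ← mul_assoc, ← Finset.prod_mul_distrib]
  congr 1
  refine Finset.prod_congr rfl (fun τ _ => ?_)
  cases h : σ τ with
  | none => simp [absS, h, FF_empty]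
  | some a => simp [absS, h]

lemma prod_GG (S : Fin n → Finset (Finset ℕ)) (g : Fin n → ℝ)
    (S1 : Finset (Finset ℕ)) (σ : Fin n → Option ℕ) :
    AA g σ * AA g σ * ∏ t, GG (extS S1 S σ t) =
      GG S1 * occ (fun τ => g τ ^ 2 * GG (S τ)) σ := by
  rw [Fintype.prod_option, AA, occ]
  simp only [extS, Option.elim_none, Option.elim_some]
  rw [mul_comm (GG S1), ← mul_assoc, ← Finset.prod_mul_distrib, ← Finset.prod_mul_distrib,
    mul_comm (GG S1)]
  congr 1
  refine Finset.prod_congr rfl (fun τ _ => ?_)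
  by_cases h : σ τ = none
  · simp [absS, h, GG_empty]
  · simp only [absS, h, if_false]; ring

lemma Pi1_nonneg (P : Finset ℕ) (hP : ∀ p ∈ P, p.Prime) : 0 ≤ Pi1 P := by
  refine Finset.prod_nonneg (fun p hp => ?_)
  have : (2 : ℝ) ≤ p := by exact_mod_cast (hP p hp).two_le
  have : 0 ≤ 1 / ((p : ℝ) - 1) := by apply one_div_nonneg.mpr; linarith
  linarith

lemma std_ext (ρ : ℕ → ℕ → ℕ) (P B B' : Finset ℕ) (S : Fin n → Finset (Finset ℕ))
    (S1 : Finset (Finset ℕ)) (o : Option ℕ) (hB' : B' ⊆ B)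
    (ho : ∀ a, o = some a → a ∈ B ∧ a ∉ B') (hS1 : o = none → S1 = {∅})
    (hS1P : ∀ R ∈ S1, R ⊆ P) (hSP : ∀ τ, ∀ R ∈ S τ, R ⊆ P)
    (hρ : ∀ p ∈ P, ∀ a ∈ B, ρ p a < p)
    (σ : Fin n → Option ℕ) (hσ : σ ∈ cfg n B') : Std ρ P (extS S1 S σ) (ext o σ) := by
  refine ⟨?_, ?_, ?_, ?_⟩
  · intro t t' a h h'
    cases t with
    | none =>
      cases t' with
      | none => rfl
      | some τ' =>
        simp only [ext, Option.elim_none, Option.elim_some] at h h'
        exact absurd (pos_sub_of_cfg hσ ((mem_pos σ a).2 ⟨τ', h'⟩)) (ho a h).2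
    | some τ =>
      cases t' with
      | none =>
        simp only [ext, Option.elim_none, Option.elim_some] at h h'
        exact absurd (pos_sub_of_cfg hσ ((mem_pos σ a).2 ⟨τ, h⟩)) (ho a h').2
      | some τ' =>
        simp only [ext, Option.elim_some] at h h'
        rw [inj_of_cfg hσ τ τ' a h h']
  · intro t h
    cases t with
    | none => simp only [ext, Option.elim_none] at h; simp only [extS, Option.elim_none]; exact hS1 h
    | some τ =>
      simp only [ext, Option.elim_some] at h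
      simp only [extS, Option.elim_some, absS, h, if_true]
  · intro t R hR
    cases t with
    | none => exact hS1P R (by simpa [extS] using hR)
    | some τ =>
      simp only [extS, Option.elim_some, absS] at hR
      split_ifs at hR with h
      · rw [Finset.mem_singleton] at hR; rw [hR]; exact Finset.empty_subset _
      · exact hSP τ R hR
  · intro p hp a ha
    rw [pos_ext, Finset.mem_union] at ha
    rcases ha with ha | ha
    · rw [Option.mem_toFinset, Option.mem_def] at ha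
      exact hρ p hp a (ho a ha).1
    · exact hρ p hp a (hB' (pos_sub_of_cfg hσ ha))

lemma defect_ext (B B' : Finset ℕ) (S : Fin n → Finset (Finset ℕ))
    (S1 : Finset (Finset ℕ)) (o : Option ℕ)
    (ho : ∀ a, o = some a → a ∈ B ∧ a ∉ B') (hS0 : ∀ τ, ∅ ∉ S τ)
    (hSd : ∀ τ τ', τ ≠ τ' → Disjoint (S τ) (S τ'))
    (σ σ' : Fin n → Option ℕ) (hσ : σ ∈ cfg n B') (hσ' : σ' ∈ cfg n B') (hne : σ ≠ σ') :
    Defect (extS S1 S σ) (extS S1 S σ') (ext o σ) (ext o σ') := by
  obtain ⟨τ, hτ⟩ := Function.ne_iff.1 hne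
  cases h : σ τ with
  | some a =>
    have haB : a ∈ B' := pos_sub_of_cfg hσ ((mem_pos σ a).2 ⟨τ, h⟩)
    by_cases ha : a ∈ pos (ext o σ')
    · rw [mem_pos] at ha
      obtain ⟨t, ht⟩ := ha
      cases t with
      | none =>
        simp only [ext, Option.elim_none] at ht
        exact absurd haB (ho a ht).2
      | some τ' =>
        simp only [ext, Option.elim_some] at ht
        right; right
        refine ⟨some τ, some τ', a, by simp [ext, h], by simp [ext, ht], ?_⟩
        simp only [extS, Option.elim_some, absS, h, ht]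
        simp only [reduceCtorEq, if_false]
        apply hSd
        rintro rfl
        exact hτ (h.trans ht.symm)
    · left
      refine ⟨some τ, a, by simp [ext, h], ha, ?_⟩
      simp only [extS, Option.elim_some, absS, h, reduceCtorEq, if_false]
      exact hS0 τ
  | none =>
    cases h' : σ' τ with
    | none => exact absurd (h.trans h'.symm) hτ
    | some a =>
      have haB : a ∈ B' := pos_sub_of_cfg hσ' ((mem_pos σ' a).2 ⟨τ, h'⟩)
      by_cases ha : a ∈ pos (ext o σ)
      · rw [mem_pos] at ha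
        obtain ⟨t, ht⟩ := ha
        cases t with
        | none =>
          simp only [ext, Option.elim_none] at ht
          exact absurd haB (ho a ht).2
        | some τ' =>
          simp only [ext, Option.elim_some] at ht
          right; right
          refine ⟨some τ', some τ, a, by simp [ext, ht], by simp [ext, h'], ?_⟩
          simp only [extS, Option.elim_some, absS, ht, h']
          simp only [reduceCtorEq, if_false]
          apply hSd
          rintro rfl
          exact hτ (ht.trans h'.symm)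
      · right; left
        refine ⟨some τ, a, by simp [ext, h'], ha, ?_⟩
        simp only [extS, Option.elim_some, absS, h', reduceCtorEq, if_false]
        exact hS0 τ

/-- the counting bound for pairs of configurations -/
lemma sum_pairs (hcm : CountMaps) (B' : Finset ℕ) (C V : ℝ) (hV : 0 < V)
    (hB : (B'.card : ℝ) * V ≤ C) :
    ∑ σ ∈ cfg n B', ∑ σ' ∈ cfg n B', V ^ (pos σ ∪ pos σ').card ≤ (1 + 2 * n + C) ^ (2 * n) := by
  have h1 : ∑ σ ∈ cfg n B', ∑ σ' ∈ cfg n B', V ^ (pos σ ∪ pos σ').card ≤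
      ∑ h ∈ Fintype.piFinset (fun _ : Fin (n + n) => Finset.insertNone B'), V ^ (pos h).card := by
    rw [← Finset.sum_product']
    have e1 : ∑ x ∈ cfg n B' ×ˢ cfg n B', V ^ (pos x.1 ∪ pos x.2).card =
        ∑ h ∈ (cfg n B' ×ˢ cfg n B').image
          (fun x : (Fin n → Option ℕ) × (Fin n → Option ℕ) => Fin.append x.1 x.2),
          V ^ (pos h).card := by
      rw [Finset.sum_image]
      · exact Finset.sum_congr rfl (fun x _ => by rw [pos_append])
      · rintro ⟨a, b⟩ _ ⟨c, d⟩ _ h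
        simp only at h
        have ha : a = c := by
          funext i
          have := congrFun h (Fin.castAdd n i)
          rwa [Fin.append_left, Fin.append_left] at this
        have hb : b = d := by
          funext i
          have := congrFun h (Fin.natAdd n i)
          rwa [Fin.append_right, Fin.append_right] at this
        rw [ha, hb]
    rw [e1]
    refine Finset.sum_le_sum_of_subset_of_nonneg ?_ (fun _ _ _ => by positivity)
    intro h hh
    rw [Finset.mem_image] at hh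
    obtain ⟨⟨a, b⟩, hab, rfl⟩ := hh
    rw [Finset.mem_product] at hab
    have ha := Fintype.mem_piFinset.1 (cfg_sub B' hab.1)
    have hb := Fintype.mem_piFinset.1 (cfg_sub B' hab.2)
    rw [Fintype.mem_piFinset]
    intro t
    refine Fin.addCases (fun i => ?_) (fun i => ?_) t
    · simp only [Fin.append_left]; exact ha i
    · simp only [Fin.append_right]; exact hb i
  refine h1.trans ((hcm (n + n) B' V hV.le).trans ?_)
  have : (1 + ((n + n : ℕ) : ℝ) + B'.card * V) ≤ 1 + 2 * n + C := by push_cast; linarith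
  rw [← two_mul]
  refine pow_le_pow_left₀ (by positivity) ?_ _
  push_cast
  linarith


/-- bound of the correlation of a pair of configurations -/
lemma pair_coef (g : Fin n → ℝ) (C V Q : ℝ) (hC : 1 ≤ C) (hV : 0 < V) (hV1 : V ≤ 1)
    (hg : ∀ τ, 0 ≤ g τ ∧ g τ ≤ C * V) (hQ0 : 0 ≤ Q) (hQ : Q ≤ C / V)
    (o : Option ℕ) (σ σ' : Fin n → Option ℕ) :
    |AA g σ| * |AA g σ'| * Q ^ (pos (ext o σ) ∩ pos (ext o σ')).card ≤
      (C / V) ^ o.toFinset.card * C ^ (3 * n) * V ^ (pos σ ∪ pos σ').card := by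
  have hCV : 1 ≤ C / V := by rw [le_div_iff₀ hV]; linarith
  have h1 : Q ^ (pos (ext o σ) ∩ pos (ext o σ')).card ≤
      (C / V) ^ (o.toFinset.card + (pos σ ∩ pos σ').card) := by
    refine (pow_le_pow_left₀ hQ0 hQ _).trans (pow_le_pow_right₀ hCV ?_)
    rw [pos_ext, pos_ext, ← Finset.union_inter_distrib_left]
    exact Finset.card_union_le _ _
  have h2 := abs_AA_le g C V hC hV hV1 hg σ
  have h3 := abs_AA_le g C V hC hV hV1 hg σ'
  have h4 : |AA g σ| * |AA g σ'| ≤
      (C ^ n * V ^ (pos σ).card) * (C ^ n * V ^ (pos σ').card) :=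
    mul_le_mul h2 h3 (abs_nonneg _) (by positivity)
  refine (mul_le_mul h4 h1 (by positivity) (by positivity)).trans ?_
  have h5 : (pos σ ∪ pos σ').card + (pos σ ∩ pos σ').card = (pos σ).card + (pos σ').card :=
    Finset.card_union_add_card_inter _ _
  have h6 : (pos σ ∩ pos σ').card ≤ n :=
    (Finset.card_le_card Finset.inter_subset_left).trans (card_pos_le_n σ)
  have h7 : C ^ n * V ^ (pos σ).card * (C ^ n * V ^ (pos σ').card) =
      C ^ (2 * n) * (V ^ (pos σ ∪ pos σ').card * V ^ (pos σ ∩ pos σ').card) := by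
    rw [← pow_add V, h5]; ring
  rw [h7, pow_add]
  have h8 : V ^ (pos σ ∩ pos σ').card * (C / V) ^ (pos σ ∩ pos σ').card =
      C ^ (pos σ ∩ pos σ').card := by
    rw [← mul_pow]; congr 1; field_simp
  have h9 : C ^ (2 * n) * (V ^ (pos σ ∪ pos σ').card * V ^ (pos σ ∩ pos σ').card) *
      ((C / V) ^ o.toFinset.card * (C / V) ^ (pos σ ∩ pos σ').card) =
      (C / V) ^ o.toFinset.card * (C ^ (2 * n) * C ^ (pos σ ∩ pos σ').card) *
        V ^ (pos σ ∪ pos σ').card := by
    rw [← h8]; ring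
  rw [h9]
  have h10 : C ^ (2 * n) * C ^ (pos σ ∩ pos σ').card ≤ C ^ (3 * n) := by
    rw [← pow_add]; exact pow_le_pow_right₀ hC (by omega)
  gcongr

lemma abs_AA_le' (g : Fin n → ℝ) (C V : ℝ) (hC : 1 ≤ C) (hV : 0 < V) (hV1 : V ≤ 1)
    (hg : ∀ τ, 0 ≤ g τ ∧ g τ ≤ C * V) (σ : Fin n → Option ℕ) :
    |AA g σ| ≤ C ^ n := by
  refine (abs_AA_le g C V hC hV hV1 hg σ).trans ?_
  have : V ^ (pos σ).card ≤ 1 := pow_le_one₀ hV.le hV1
  have h : 0 ≤ C ^ n := by positivity
  nlinarith

/-- both parts of `Second` at once: `o` is the extra position -/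
theorem main_gen (hcm : CountMaps) (n : ℕ) (C KM : ℝ) (hC : 1 ≤ C) (hKM : 0 ≤ KM)
    (hM : ∀ (T : Type) [Fintype T] [DecidableEq T], Fintype.card T ≤ n + 1 →
      ∀ (P : Finset ℕ) (ρ : ℕ → ℕ → ℕ) (S S' : T → Finset (Finset ℕ)) (σ σ' : T → Option ℕ)
        (Y Y' : T → ℝ), (∀ p ∈ P, p.Prime) → Std ρ P S σ → Std ρ P S' σ' →
        (∀ τ, ∑ R ∈ S τ, wt R * (∏ p ∈ R, (p : ℝ)) ^ 2 ≤ Y τ) →
        (∀ τ, ∑ R ∈ S' τ, wt R * (∏ p ∈ R, (p : ℝ)) ^ 2 ≤ Y' τ) → ∀ X : ℕ,
        (Defect S S' σ σ' → |∑ m ∈ range X, ZZ ρ S σ m * ZZ ρ S' σ' m| ≤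
          X * (KM * Pi1 P ^ (pos σ ∩ pos σ').card * (Real.exp (KM * del ρ P (pos σ ∪ pos σ')) - 1)) +
            2 * ((∏ τ, Y τ) * ∏ τ, Y' τ)) ∧
        (σ = σ' → S = S' → |∑ m ∈ range X, ZZ ρ S σ m * ZZ ρ S' σ' m - X * ∏ τ, GG (S τ)| ≤
          X * (KM * Pi1 P ^ (pos σ ∩ pos σ').card * (Real.exp (KM * del ρ P (pos σ ∪ pos σ')) - 1)) +
            2 * ((∏ τ, Y τ) * ∏ τ, Y' τ)))
    (P B B' : Finset ℕ) (ρ : ℕ → ℕ → ℕ) (S : Fin n → Finset (Finset ℕ)) (g Y : Fin n → ℝ)
    (V δ : ℝ) (hP : ∀ p ∈ P, p.Prime) (hV : 0 < V) (hV1 : V ≤ 1)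
    (hPi : Pi1 P ≤ C / V) (hB : (B.card : ℝ) ≤ C / V)
    (hg : ∀ τ, 0 ≤ g τ ∧ g τ ≤ C * V)
    (hSP : ∀ τ, ∀ R ∈ S τ, R ⊆ P) (hS0 : ∀ τ, ∅ ∉ S τ)
    (hSd : ∀ τ τ', τ ≠ τ' → Disjoint (S τ) (S τ'))
    (hρ : ∀ p ∈ P, ∀ a ∈ B, ρ p a < p)
    (hdel : ∀ U ⊆ B, U.card ≤ 2 * n + 1 → del ρ P U ≤ δ)
    (hY : ∀ τ, 1 ≤ Y τ ∧ ∑ R ∈ S τ, wt R * (∏ p ∈ R, (p : ℝ)) ^ 2 ≤ Y τ)
    (S1 : Finset (Finset ℕ)) (Y1 : ℝ) (o : Option ℕ) (hB' : B' ⊆ B)
    (ho : ∀ a, o = some a → a ∈ B ∧ a ∉ B') (hS1 : o = none → S1 = {∅})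
    (hS1P : ∀ R ∈ S1, R ⊆ P) (hY1 : 1 ≤ Y1)
    (hS1Y : ∑ R ∈ S1, wt R * (∏ p ∈ R, (p : ℝ)) ^ 2 ≤ Y1)
    (c : (Fin n → Option ℕ) → ℝ) (hc : ∀ σ, |c σ| ≤ 1) (X : ℕ) :
    |∑ m ∈ range X, (WW B' c (fun τ a => - g τ * FF ρ (S τ) (some a) m) * FF ρ S1 o m) ^ 2 -
      X * (GG S1 * ∑ σ ∈ cfg n B', c σ ^ 2 * occ (fun τ => g τ ^ 2 * GG (S τ)) σ)| ≤
    X * (KM * (C / V) ^ o.toFinset.card * C ^ (3 * n) * (1 + 2 * n + C) ^ (2 * n) *
        (Real.exp (KM * δ) - 1)) +
      2 * C ^ (2 * n) * ((B.card + 1 : ℝ) ^ (2 * n) * (Y1 * ∏ τ, Y τ) ^ 2) := by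
  classical
  set ZS : (Fin n → Option ℕ) → ℕ → ℝ := fun σ m => ZZ ρ (extS S1 S σ) (ext o σ) m with hZS
  set M : (Fin n → Option ℕ) → (Fin n → Option ℕ) → ℝ :=
    fun σ σ' => ∑ m ∈ range X, ZS σ m * ZS σ' m with hMdef
  set D : (Fin n → Option ℕ) → (Fin n → Option ℕ) → ℝ :=
    fun σ σ' => if σ = σ' then X * ∏ t, GG (extS S1 S σ t) else 0 with hD
  -- expansion of the square
  have e1 : ∑ m ∈ range X, (WW B' c (fun τ a => - g τ * FF ρ (S τ) (some a) m) *
      FF ρ S1 o m) ^ 2 =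
      ∑ σ ∈ cfg n B', ∑ σ' ∈ cfg n B', (c σ * AA g σ * (c σ' * AA g σ')) * M σ σ' := by
    have e0 : ∀ m, (WW B' c (fun τ a => - g τ * FF ρ (S τ) (some a) m) * FF ρ S1 o m) ^ 2 =
        ∑ σ ∈ cfg n B', ∑ σ' ∈ cfg n B',
          (c σ * AA g σ * (c σ' * AA g σ')) * (ZS σ m * ZS σ' m) := by
      intro m
      have : WW B' c (fun τ a => - g τ * FF ρ (S τ) (some a) m) * FF ρ S1 o m =
          ∑ σ ∈ cfg n B', c σ * AA g σ * ZS σ m := by
        rw [WW, Finset.sum_mul]
        refine Finset.sum_congr rfl (fun σ _ => ?_)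
        rw [mul_assoc, term_eq, hZS]; ring
      rw [this, sq, Finset.sum_mul_sum]
      refine Finset.sum_congr rfl (fun σ _ => Finset.sum_congr rfl (fun σ' _ => ?_))
      ring
    rw [Finset.sum_congr rfl (fun m _ => e0 m), Finset.sum_comm]
    refine Finset.sum_congr rfl (fun σ _ => ?_)
    rw [Finset.sum_comm]
    refine Finset.sum_congr rfl (fun σ' _ => ?_)
    rw [hMdef, Finset.mul_sum]
  have e2 : X * (GG S1 * ∑ σ ∈ cfg n B', c σ ^ 2 * occ (fun τ => g τ ^ 2 * GG (S τ)) σ) =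
      ∑ σ ∈ cfg n B', ∑ σ' ∈ cfg n B', (c σ * AA g σ * (c σ' * AA g σ')) * D σ σ' := by
    rw [Finset.mul_sum, Finset.mul_sum]
    refine Finset.sum_congr rfl (fun σ hσ => ?_)
    rw [Finset.sum_eq_single_of_mem σ hσ (fun σ' _ h => by simp [hD, Ne.symm h])]
    have := prod_GG S g S1 σ
    simp only [hD, if_true]
    calc (X : ℝ) * (GG S1 * (c σ ^ 2 * occ (fun τ => g τ ^ 2 * GG (S τ)) σ))
        = X * c σ ^ 2 * (GG S1 * occ (fun τ => g τ ^ 2 * GG (S τ)) σ) := by ring
      _ = _ := by rw [← this]; ring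
  rw [e1, e2, ← Finset.sum_sub_distrib]
  have e3 : ∀ σ ∈ cfg n B', ∀ σ' ∈ cfg n B',
      |(c σ * AA g σ * (c σ' * AA g σ')) * M σ σ' - (c σ * AA g σ * (c σ' * AA g σ')) * D σ σ'| ≤
      X * (KM * (C / V) ^ o.toFinset.card * C ^ (3 * n) *
        (Real.exp (KM * δ) - 1)) * V ^ (pos σ ∪ pos σ').card +
      2 * C ^ (2 * n) * (Y1 * ∏ τ, Y τ) ^ 2 := by
    intro σ hσ σ' hσ'
    have hYp : 1 ≤ ∏ τ, Y τ := by
      rw [← Finset.prod_const_one (s := (univ : Finset (Fin n)))]
      exact Finset.prod_le_prod (fun _ _ => zero_le_one) (fun τ _ => (hY τ).1)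
    have hst := std_ext ρ P B B' S S1 o hB' ho hS1 hS1P hSP hρ σ hσ
    have hst' := std_ext ρ P B B' S S1 o hB' ho hS1 hS1P hSP hρ σ' hσ'
    set YY : Option (Fin n) → ℝ := fun t => t.elim Y1 Y with hYY
    have hYb : ∀ σ : Fin n → Option ℕ, ∀ t, ∑ R ∈ extS S1 S σ t, wt R * (∏ p ∈ R, (p : ℝ)) ^ 2 ≤ YY t := by
      intro σ t
      cases t with
      | none => simpa [extS, hYY] using hS1Y
      | some τ =>
        simp only [extS, Option.elim_some, absS, hYY]
        split_ifs with h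
        · simp only [Finset.sum_singleton, wt_empty, Finset.prod_empty]
          have := (hY τ).1
          linarith
        · exact (hY τ).2
    have hYYp : ∏ t, YY t = Y1 * ∏ τ, Y τ := by
      rw [Fintype.prod_option, hYY]; rfl
    have hmm := hM (Option (Fin n)) (by simp) P ρ (extS S1 S σ) (extS S1 S σ') (ext o σ) (ext o σ')
      YY YY hP hst hst' (hYb σ) (hYb σ') X
    rw [hYYp] at hmm
    have hMD : |M σ σ' - D σ σ'| ≤
        X * (KM * Pi1 P ^ (pos (ext o σ) ∩ pos (ext o σ')).card *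
          (Real.exp (KM * del ρ P (pos (ext o σ) ∪ pos (ext o σ'))) - 1)) +
            2 * ((Y1 * ∏ τ, Y τ) * (Y1 * ∏ τ, Y τ)) := by
      by_cases h : σ = σ'
      · subst h
        have := hmm.2 rfl rfl
        simp only [hMdef, hD, if_true]
        exact this
      · have := hmm.1 (defect_ext B B' S S1 o ho hS0 hSd σ σ' hσ hσ' h)
        simp only [hMdef, hD, if_neg h, sub_zero]
        exact this
    have hdel' : del ρ P (pos (ext o σ) ∪ pos (ext o σ')) ≤ δ := by
      apply hdel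
      · rw [pos_ext, pos_ext]
        intro a ha
        simp only [Finset.mem_union, Option.mem_toFinset, Option.mem_def] at ha
        rcases ha with (h | h) | (h | h)
        · exact (ho a h).1
        · exact hB' (pos_sub_of_cfg hσ h)
        · exact (ho a h).1
        · exact hB' (pos_sub_of_cfg hσ' h)
      · have h1 : (pos (ext o σ) ∪ pos (ext o σ')) = o.toFinset ∪ (pos σ ∪ pos σ') := by
          rw [pos_ext, pos_ext, ← Finset.union_union_distrib_left]
        rw [h1]
        have h2 := Finset.card_union_le o.toFinset (pos σ ∪ pos σ')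
        have h3 := Finset.card_union_le (pos σ) (pos σ')
        have h4 := card_pos_le_n σ
        have h5 := card_pos_le_n σ'
        have h6 : o.toFinset.card ≤ 1 := by cases o <;> simp
        omega
    have hexp : Real.exp (KM * del ρ P (pos (ext o σ) ∪ pos (ext o σ'))) - 1 ≤
        Real.exp (KM * δ) - 1 := by
      have := Real.exp_le_exp.2 (mul_le_mul_of_nonneg_left hdel' hKM)
      linarith
    have hδ : 0 ≤ δ := by
      refine le_trans ?_ hdel'
      unfold del
      refine add_nonneg (Finset.sum_nonneg (fun p _ => by positivity))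
        (Finset.sum_nonneg (fun p hp => ?_))
      have hp2 : (2 : ℝ) ≤ p := by exact_mod_cast (hP p (Finset.mem_filter.1 hp).1).two_le
      apply one_div_nonneg.mpr; linarith
    have hexp0 : 0 ≤ Real.exp (KM * δ) - 1 := by
      have := Real.one_le_exp (mul_nonneg hKM hδ)
      linarith
    have hpc := pair_coef g C V (Pi1 P) hC hV hV1 hg (Pi1_nonneg P hP) hPi o σ σ'
    have hPn : 0 ≤ Pi1 P ^ (pos (ext o σ) ∩ pos (ext o σ')).card :=
      pow_nonneg (Pi1_nonneg P hP) _
    rw [← mul_sub, abs_mul]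
    have hcc : |c σ * AA g σ * (c σ' * AA g σ')| ≤ |AA g σ| * |AA g σ'| := by
      rw [abs_mul, abs_mul, abs_mul]
      have h1 := hc σ
      have h2 := hc σ'
      have h3 : |c σ| * |AA g σ| ≤ |AA g σ| := by
        have := mul_le_mul_of_nonneg_right h1 (abs_nonneg (AA g σ)); linarith
      have h4 : |c σ'| * |AA g σ'| ≤ |AA g σ'| := by
        have := mul_le_mul_of_nonneg_right h2 (abs_nonneg (AA g σ')); linarith
      exact mul_le_mul h3 h4 (by positivity) (by positivity)
    refine (mul_le_mul hcc hMD (abs_nonneg _) (by positivity)).trans ?_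
    rw [mul_add]
    refine add_le_add ?_ ?_
    · calc |AA g σ| * |AA g σ'| * (X * (KM * Pi1 P ^ (pos (ext o σ) ∩ pos (ext o σ')).card *
            (Real.exp (KM * del ρ P (pos (ext o σ) ∪ pos (ext o σ'))) - 1)))
          ≤ |AA g σ| * |AA g σ'| * (X * (KM * Pi1 P ^ (pos (ext o σ) ∩ pos (ext o σ')).card *
            (Real.exp (KM * δ) - 1))) := by gcongr
        _ = (|AA g σ| * |AA g σ'| * Pi1 P ^ (pos (ext o σ) ∩ pos (ext o σ')).card) *
            (X * (KM * (Real.exp (KM * δ) - 1))) := by ring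
        _ ≤ ((C / V) ^ o.toFinset.card * C ^ (3 * n) * V ^ (pos σ ∪ pos σ').card) *
            (X * (KM * (Real.exp (KM * δ) - 1))) := by gcongr
        _ = _ := by ring
    · have h1 := abs_AA_le' g C V hC hV hV1 hg σ
      have h2 := abs_AA_le' g C V hC hV hV1 hg σ'
      calc |AA g σ| * |AA g σ'| * (2 * ((Y1 * ∏ τ, Y τ) * (Y1 * ∏ τ, Y τ)))
          ≤ (C ^ n * C ^ n) * (2 * ((Y1 * ∏ τ, Y τ) * (Y1 * ∏ τ, Y τ))) := by gcongr
        _ = _ := by ring
  have hδ0 : 0 ≤ δ := by
    refine le_trans ?_ (hdel ∅ (Finset.empty_subset _) (by simp))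
    unfold del
    refine add_nonneg (Finset.sum_nonneg (fun p _ => by positivity))
      (Finset.sum_nonneg (fun p hp => ?_))
    have hp2 : (2 : ℝ) ≤ p := by exact_mod_cast (hP p (Finset.mem_filter.1 hp).1).two_le
    apply one_div_nonneg.mpr; linarith
  have hexp0 : 0 ≤ Real.exp (KM * δ) - 1 := by
    have := Real.one_le_exp (mul_nonneg hKM hδ0)
    linarith
  have hcard : ((cfg n B').card : ℝ) ≤ (B.card + 1 : ℝ) ^ n := by
    have h1 := card_cfg_le (n := n) B'
    have h2 : ((cfg n B').card : ℝ) ≤ ((B'.card + 1 : ℕ) : ℝ) ^ n := by exact_mod_cast h1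
    refine h2.trans (pow_le_pow_left₀ (by positivity) ?_ _)
    push_cast
    have : (B'.card : ℝ) ≤ B.card := by exact_mod_cast Finset.card_le_card hB'
    linarith
  have hsp := sum_pairs (n := n) hcm B' C V hV (by
    have : (B'.card : ℝ) ≤ B.card := by exact_mod_cast Finset.card_le_card hB'
    have h2 : (B.card : ℝ) * V ≤ C := by rwa [le_div_iff₀ hV] at hB
    nlinarith)
  calc |∑ σ ∈ cfg n B', (∑ σ' ∈ cfg n B', (c σ * AA g σ * (c σ' * AA g σ')) * M σ σ' -
        ∑ σ' ∈ cfg n B', (c σ * AA g σ * (c σ' * AA g σ')) * D σ σ')|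
      ≤ ∑ σ ∈ cfg n B', ∑ σ' ∈ cfg n B', |(c σ * AA g σ * (c σ' * AA g σ')) * M σ σ' -
          (c σ * AA g σ * (c σ' * AA g σ')) * D σ σ'| := by
        refine (Finset.abs_sum_le_sum_abs _ _).trans (Finset.sum_le_sum (fun σ _ => ?_))
        rw [← Finset.sum_sub_distrib]
        exact Finset.abs_sum_le_sum_abs _ _
    _ ≤ ∑ σ ∈ cfg n B', ∑ σ' ∈ cfg n B', (X * (KM * (C / V) ^ o.toFinset.card * C ^ (3 * n) *
        (Real.exp (KM * δ) - 1)) * V ^ (pos σ ∪ pos σ').card +
      2 * C ^ (2 * n) * (Y1 * ∏ τ, Y τ) ^ 2) :=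
        Finset.sum_le_sum (fun σ hσ => Finset.sum_le_sum (fun σ' hσ' => e3 σ hσ σ' hσ'))
    _ = X * (KM * (C / V) ^ o.toFinset.card * C ^ (3 * n) * (Real.exp (KM * δ) - 1)) *
          (∑ σ ∈ cfg n B', ∑ σ' ∈ cfg n B', V ^ (pos σ ∪ pos σ').card) +
        (cfg n B').card * ((cfg n B').card * (2 * C ^ (2 * n) * (Y1 * ∏ τ, Y τ) ^ 2)) := by
        simp only [Finset.sum_add_distrib, Finset.sum_const, nsmul_eq_mul, ← Finset.mul_sum]
    _ ≤ X * (KM * (C / V) ^ o.toFinset.card * C ^ (3 * n) * (Real.exp (KM * δ) - 1)) *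
          (1 + 2 * n + C) ^ (2 * n) +
        (B.card + 1 : ℝ) ^ n * ((B.card + 1 : ℝ) ^ n * (2 * C ^ (2 * n) * (Y1 * ∏ τ, Y τ) ^ 2)) := by
        gcongr
    _ = _ := by ring

/-- Task AC4: the second moments. -/
theorem second_of : CountMaps → Moment → Second := by
  intro hcm hmom n C hC
  obtain ⟨KM, hKM, hM⟩ := hmom (n + 1)
  set W : ℝ := C ^ (3 * n) * (1 + 2 * n + C) ^ (2 * n) with hW
  have hW0 : 0 ≤ W := by positivity
  have hCW : W ≤ C * W := by nlinarith
  refine ⟨KM * (1 + C * W) + 2 * C ^ (2 * n), by positivity, ?_⟩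
  intro P B ρ S g Y V δ hP hV hV1 hδ hPi hB hg hSP hS0 hSd hρ hdel hY
  set K : ℝ := KM * (1 + C * W) + 2 * C ^ (2 * n) with hK
  have hK0 : 0 ≤ K := by positivity
  have hKM1 : KM ≤ K := by
    have h1 : 0 ≤ KM * (C * W) := by positivity
    have h2 : (0 : ℝ) ≤ 2 * C ^ (2 * n) := by positivity
    rw [hK, mul_add, mul_one]; linarith
  have hKM2 : KM * (C * W) ≤ K := by
    have h2 : (0 : ℝ) ≤ 2 * C ^ (2 * n) := by positivity
    rw [hK, mul_add, mul_one]; linarith
  have hK3 : 2 * C ^ (2 * n) ≤ K := by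
    have h1 : 0 ≤ KM * (1 + C * W) := by positivity
    rw [hK]; linarith
  have hexp : Real.exp (KM * δ) - 1 ≤ Real.exp (K * δ) - 1 := by
    have := Real.exp_le_exp.2 (mul_le_mul_of_nonneg_right hKM1 hδ)
    linarith
  have hexp0 : 0 ≤ Real.exp (KM * δ) - 1 := by
    have := Real.one_le_exp (mul_nonneg hKM hδ)
    linarith
  constructor
  · intro c hc X
    have h := main_gen hcm n C KM hC hKM hM P B B ρ S g Y V δ hP hV hV1 hPi hB hg hSP hS0 hSd hρ
      hdel hY {∅} 1 none (Finset.Subset.refl B) (fun a h => by simp at h) (fun _ => rfl)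
      (fun R hR => by rw [Finset.mem_singleton] at hR; rw [hR]; exact Finset.empty_subset _)
      le_rfl (by simp [wt_empty]) c hc X
    simp only [FF_empty, mul_one, GG_empty, one_mul, Option.toFinset_none, Finset.card_empty,
      pow_zero] at h
    refine h.trans (add_le_add ?_ ?_)
    · have h1 : KM * C ^ (3 * n) * (1 + 2 * n + C) ^ (2 * n) * (Real.exp (KM * δ) - 1) ≤
          K * (Real.exp (K * δ) - 1) := by
        refine mul_le_mul ?_ hexp hexp0 hK0
        rw [mul_assoc, ← hW]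
        exact (mul_le_mul_of_nonneg_left hCW hKM).trans hKM2
      exact mul_le_mul_of_nonneg_left h1 (by positivity)
    · gcongr
  · intro S1 Y1 hS1P hY1 hS1Y a₀ ha₀ c hc X
    have h := main_gen hcm n C KM hC hKM hM P B (B.erase a₀) ρ S g Y V δ hP hV hV1 hPi hB hg hSP
      hS0 hSd hρ hdel hY S1 Y1 (some a₀) (Finset.erase_subset _ _)
      (fun a h => by
        rw [Option.some.injEq] at h
        subst h
        exact ⟨ha₀, Finset.notMem_erase _ _⟩) (fun h => by simp at h)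
      hS1P hY1 hS1Y c hc X
    simp only [Option.toFinset_some, Finset.card_singleton, pow_one] at h
    refine h.trans (add_le_add ?_ ?_)
    · have h1 : KM * (C / V) * C ^ (3 * n) * (1 + 2 * n + C) ^ (2 * n) * (Real.exp (KM * δ) - 1) ≤
          K / V * (Real.exp (K * δ) - 1) := by
        refine mul_le_mul ?_ hexp hexp0 (by positivity)
        have : KM * (C / V) * C ^ (3 * n) * (1 + 2 * n + C) ^ (2 * n) = KM * (C * W) / V := by
          rw [hW]; ring
        rw [this]
        gcongr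
      exact mul_le_mul_of_nonneg_left h1 (by positivity)
    · gcongr

end Pool.Agent.H400R2.AC4
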